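import Pool.Agent.H65.HX.SStm

/-!
# Crew HX, parts VM and VL (helper14)
-/

set_option autoImplicit false
open Classical Finset

namespace Pool.Agent.H14.HX

open Pool.Agent.H39.HW (sm Av ln blk lab)
open Pool.Agent.H65.HX
open Pool.Agent.H65.HX.Sc

/-- natural number inequalities between `B`, `K`, `n0` -/
theorem nums (x : Prm) (hx : Par x) :
    1000 * x.n0 ≤ x.K ∧ 399 * x.K ≤ 100 * x.B ∧ 100 * x.B ≤ 401 * x.K ∧ 200 ≤ x.K := by
  have hμ := hx.m0
  have hη := hx.n1
  have hLh : (1 : ℝ) ≤ (x.L : ℝ) * x.h := by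
    have h1 := hx.h1
    have hL := hx.L1
    have h2 : 1 ≤ x.L * x.h := by
      have : 0 < x.L := by
        rw [hL]
        positivity
      exact Nat.mul_pos this (by omega)
    exact_mod_cast h2
  have hn : (x.n0 : ℝ) * x.μ ≤ 1 / 10 ^ 12 := by
    have h := hx.V1
    have h0 : 0 ≤ (x.n0 : ℝ) * x.μ := by positivity
    rw [le_div_iff₀ (by positivity)]
    nlinarith
  have hη2 : x.η ≤ 1 / 10 ^ 18 := by
    have h := hx.V2
    rw [le_div_iff₀ (by positivity)]
    nlinarith
  have hK := abs_le.mp hx.k1
  have hM := abs_le.mp hx.m1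
  have hJ := hx.j1
  have hJ0 : 0 ≤ (x.J : ℝ) * x.μ := by positivity
  have hB : (x.B : ℝ) * x.μ = 2 * (x.K * x.μ) + 2 * (x.J * x.μ) + x.M * x.μ := by
    unfold Prm.B
    push_cast
    ring
  have key : ∀ u v : ℕ, (u : ℝ) * x.μ ≤ (v : ℝ) * x.μ → u ≤ v := by
    intro u v h
    have := le_of_mul_le_mul_right h hμ
    exact_mod_cast this
  refine ⟨?_, ?_, ?_, ?_⟩
  · apply key
    push_cast
    norm_num at *
    nlinarith
  · apply key
    push_cast
    norm_num at *
    nlinarith
  · apply key
    push_cast
    norm_num at *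
    nlinarith
  · have := hx.KJ
    have := hx.J1
    omega

theorem mem_R (x : Prm) (a : ℕ) : a ∈ x.R ↔ x.K + 1 ≤ a ∧ a ≤ x.b1 + x.J - 1 := by
  unfold Prm.R
  rw [Finset.mem_Icc]

theorem mem_R0 (x : Prm) (a : ℕ) : a ∈ x.R0 ↔ (x.K + 1 ≤ a ∧ a ≤ x.b1 + x.J - 1) ∧
    x.B ≤ 2 * a + 2 * x.n0 ∧ 2 * a ≤ x.B + 2 * x.n0 := by
  unfold Prm.R0
  rw [Finset.mem_filter, mem_R]

theorem mem_ZF (x : Prm) (β : ℕ) : β ∈ x.ZZ false ↔ x.K / 5 ≤ β ∧ β < 3 * x.K / 10 := by
  simp [Prm.ZZ]

theorem mem_ZT (x : Prm) (β : ℕ) :
    β ∈ x.ZZ true ↔ x.B - 3 * x.K / 10 < β ∧ β ≤ x.B - x.K / 5 := by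
  simp [Prm.ZZ]

theorem mem_YF (x : Prm) (β : ℕ) : β ∈ x.YY false ↔ 7 * x.K / 5 ≤ β ∧ β ≤ 8 * x.K / 5 := by
  simp [Prm.YY]

theorem mem_YT (x : Prm) (β : ℕ) :
    β ∈ x.YY true ↔ x.B - 8 * x.K / 5 ≤ β ∧ β ≤ x.B - 7 * x.K / 5 := by
  simp [Prm.YY]

theorem sm_cases (B a b β : ℕ) (h : sm B a b = β) :
    (a + b < B ∧ β = a + b) ∨ (B ≤ a + b ∧ β = a + b - B) := by
  unfold sm at h
  split_ifs at h with h1
  · left
    exact ⟨h1, h.symm⟩
  · right
    exact ⟨by omega, h.symm⟩

theorem Bb (x : Prm) : x.b1 + x.J + x.K = x.B := by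
  unfold Prm.b1 Prm.B
  omega

theorem t_VM : S_VM := by
  intro x hx φ
  obtain ⟨h1, h2, h3, h4⟩ := nums x hx
  have hBb := Bb x
  have hJ1 := hx.J1
  refine ⟨?_, ?_⟩
  · -- the two rows of a pair are on different sides
    intro β a ha b hb hab hs
    change a ∈ x.R at ha
    change b ∈ x.R at hb
    change sm x.B a b = β at hs
    change x.lf β a ≠ x.lf β b
    rw [mem_R] at ha hb
    have hs' := sm_cases _ _ _ _ hs
    unfold Prm.lf
    by_cases hF : β ∈ x.ZZ false
    · rw [if_pos hF, if_pos hF]
      rw [mem_ZF] at hF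
      have hab' : a + b = x.B + β := by omega
      have ho : (a ≤ 9 * x.K / 5 ∨ x.B + β ≤ a + 9 * x.K / 5) ↔
          (b ≤ 9 * x.K / 5 ∨ x.B + β ≤ b + 9 * x.K / 5) := by
        constructor <;> intro h <;> omega
      rcases lt_or_gt_of_ne hab with hlt | hlt
      · have e1 : ¬ ∃ c ∈ x.R, c < a ∧ sm x.B a c = β := by
          rintro ⟨c, hc, hca, hcs⟩
          rw [mem_R] at hc
          have := sm_cases _ _ _ _ hcs
          omega
        have e2 : ∃ c ∈ x.R, c < b ∧ sm x.B b c = β := by
          refine ⟨a, (mem_R x a).mpr ha, hlt, ?_⟩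
          unfold sm
          rw [if_neg (by omega)]
          omega
        simp only [e1, e2, ho, not_false_eq_true, not_true_eq_false, decide_true, decide_false]
        cases decide (b ≤ 9 * x.K / 5 ∨ x.B + β ≤ b + 9 * x.K / 5) <;> simp
      · have e1 : ¬ ∃ c ∈ x.R, c < b ∧ sm x.B b c = β := by
          rintro ⟨c, hc, hca, hcs⟩
          rw [mem_R] at hc
          have := sm_cases _ _ _ _ hcs
          omega
        have e2 : ∃ c ∈ x.R, c < a ∧ sm x.B a c = β := by
          refine ⟨b, (mem_R x b).mpr hb, hlt, ?_⟩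
          unfold sm
          rw [if_neg (by omega)]
          omega
        simp only [e1, e2, ho, not_false_eq_true, not_true_eq_false, decide_true, decide_false]
        cases decide (b ≤ 9 * x.K / 5 ∨ x.B + β ≤ b + 9 * x.K / 5) <;> simp
    · rw [if_neg hF, if_neg hF]
      by_cases hT : β ∈ x.ZZ true
      · rw [if_pos hT, if_pos hT]
        rw [mem_ZT] at hT
        have hab' : a + b = β := by omega
        have ho : (x.B ≤ a + 9 * x.K / 5 ∨ x.B + a ≤ β + 9 * x.K / 5) ↔
            (x.B ≤ b + 9 * x.K / 5 ∨ x.B + b ≤ β + 9 * x.K / 5) := by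
          constructor <;> intro h <;> omega
        rcases lt_or_gt_of_ne hab with hlt | hlt
        · have e1 : ∃ c ∈ x.R, a < c ∧ sm x.B a c = β := by
            refine ⟨b, (mem_R x b).mpr hb, hlt, ?_⟩
            unfold sm
            rw [if_pos (by omega)]
            omega
          have e2 : ¬ ∃ c ∈ x.R, b < c ∧ sm x.B b c = β := by
            rintro ⟨c, hc, hca, hcs⟩
            rw [mem_R] at hc
            have := sm_cases _ _ _ _ hcs
            omega
          simp only [e1, e2, ho, not_false_eq_true, not_true_eq_false, decide_true, decide_false]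
          cases decide (x.B ≤ b + 9 * x.K / 5 ∨ x.B + b ≤ β + 9 * x.K / 5) <;> simp
        · have e1 : ∃ c ∈ x.R, b < c ∧ sm x.B b c = β := by
            refine ⟨a, (mem_R x a).mpr ha, hlt, ?_⟩
            unfold sm
            rw [if_pos (by omega)]
            omega
          have e2 : ¬ ∃ c ∈ x.R, a < c ∧ sm x.B a c = β := by
            rintro ⟨c, hc, hca, hcs⟩
            rw [mem_R] at hc
            have := sm_cases _ _ _ _ hcs
            omega
          simp only [e1, e2, ho, not_false_eq_true, not_true_eq_false, decide_true, decide_false]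
          cases decide (x.B ≤ b + 9 * x.K / 5 ∨ x.B + b ≤ β + 9 * x.K / 5) <;> simp
      · rw [if_neg hT, if_neg hT]
        rcases lt_or_gt_of_ne hab with hlt | hlt
        · have e1 : ¬ ∃ c ∈ x.R, c < a ∧ sm x.B a c = β := by
            rintro ⟨c, hc, hca, hcs⟩
            rw [mem_R] at hc
            have := sm_cases _ _ _ _ hcs
            omega
          have e2 : ∃ c ∈ x.R, c < b ∧ sm x.B b c = β := by
            refine ⟨a, (mem_R x a).mpr ha, hlt, ?_⟩
            rw [← hs]
            unfold sm
            rw [Nat.add_comm b a]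
          simp only [e1, e2, not_false_eq_true, not_true_eq_false, decide_true, decide_false]
          simp
        · have e1 : ¬ ∃ c ∈ x.R, c < b ∧ sm x.B b c = β := by
            rintro ⟨c, hc, hca, hcs⟩
            rw [mem_R] at hc
            have := sm_cases _ _ _ _ hcs
            omega
          have e2 : ∃ c ∈ x.R, c < a ∧ sm x.B a c = β := ⟨b, (mem_R x b).mpr hb, hlt, hs⟩
          simp only [e1, e2, not_false_eq_true, not_true_eq_false, decide_true, decide_false]
          simp
  · intro τ β hβ
    change β ∈ x.ZZ τ at hβ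
    cases τ with
    | false =>
      constructor
      · intro a ha
        change a ∈ x.R0 at ha
        change x.lf β a = true
        rw [mem_R0] at ha
        unfold Prm.lf
        rw [if_pos hβ]
        rw [mem_ZF] at hβ
        have e1 : ¬ ∃ c ∈ x.R, c < a ∧ sm x.B a c = β := by
          rintro ⟨c, hc, hca, hcs⟩
          rw [mem_R] at hc
          have := sm_cases _ _ _ _ hcs
          omega
        have e2 : ¬ (a ≤ 9 * x.K / 5 ∨ x.B + β ≤ a + 9 * x.K / 5) := by omega
        simp only [e1, e2, not_false_eq_true, decide_true, decide_false]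
        simp
      · intro b hb
        change b ∈ x.YY false at hb
        change x.lf β b = false
        rw [mem_YF] at hb
        unfold Prm.lf
        rw [if_pos hβ]
        rw [mem_ZF] at hβ
        have e1 : ¬ ∃ c ∈ x.R, c < b ∧ sm x.B b c = β := by
          rintro ⟨c, hc, hca, hcs⟩
          rw [mem_R] at hc
          have := sm_cases _ _ _ _ hcs
          omega
        have e2 : (b ≤ 9 * x.K / 5 ∨ x.B + β ≤ b + 9 * x.K / 5) := by omega
        simp only [e1, e2, not_false_eq_true, decide_true]
        simp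
    | true =>
      have hF : β ∉ x.ZZ false := by
        rw [mem_ZT] at hβ
        rw [mem_ZF]
        omega
      constructor
      · intro a ha
        change a ∈ x.R0 at ha
        change x.lf β a = true
        rw [mem_R0] at ha
        unfold Prm.lf
        rw [if_neg hF, if_pos hβ]
        rw [mem_ZT] at hβ
        have e1 : ¬ ∃ c ∈ x.R, a < c ∧ sm x.B a c = β := by
          rintro ⟨c, hc, hca, hcs⟩
          rw [mem_R] at hc
          have := sm_cases _ _ _ _ hcs
          omega
        have e2 : ¬ (x.B ≤ a + 9 * x.K / 5 ∨ x.B + a ≤ β + 9 * x.K / 5) := by omega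
        simp only [e1, e2, not_false_eq_true, decide_true, decide_false]
        simp
      · intro b hb
        change b ∈ x.YY true at hb
        change x.lf β b = false
        rw [mem_YT] at hb
        unfold Prm.lf
        rw [if_neg hF, if_pos hβ]
        rw [mem_ZT] at hβ
        have e1 : ¬ ∃ c ∈ x.R, b < c ∧ sm x.B b c = β := by
          rintro ⟨c, hc, hca, hcs⟩
          rw [mem_R] at hc
          have := sm_cases _ _ _ _ hcs
          omega
        have e2 : (x.B ≤ b + 9 * x.K / 5 ∨ x.B + b ≤ β + 9 * x.K / 5) := by omega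
        simp only [e1, e2, not_false_eq_true, decide_true]
        simp

theorem t_VL (hM : S_MMD) (hC : S_CLD) : S_VL := by
  intro x hx φ
  obtain ⟨h1, h2, h3, h4⟩ := nums x hx
  have hBb := Bb x
  have hJ1 := hx.J1
  have key : ∀ a ∈ x.R, ∀ β, β < x.B → ¬ x.adj a β → β ≠ sm x.B a a →
      β ∈ (x.dat φ).cls x.p a := by
    intro a ha β hβ hadj hne
    have hm : β ∈ x.mm a := ((hM x hx).2 a ha).1 β |>.mpr ⟨hβ, hadj, hne⟩
    exact (hC x hx a ha).2.1 hm
  refine ⟨?_, ?_, ?_, ?_⟩
  · intro τ b hb
    change b ∈ x.YY τ at hb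
    change b ∈ x.R ∧ b ∉ x.R0 ∧ b ∉ x.YY (!τ)
    cases τ with
    | false =>
      rw [mem_YF] at hb
      rw [mem_R, mem_R0, Bool.not_false, mem_YT]
      omega
    | true =>
      rw [mem_YT] at hb
      rw [mem_R, mem_R0, Bool.not_true, mem_YF]
      omega
  · intro τ β hβ a ha
    change β ∈ x.ZZ τ at hβ
    change a ∈ x.R0 at ha
    rw [mem_R0] at ha
    have haR : a ∈ x.R := (mem_R x a).mpr ha.1
    have hsm := sm_cases x.B a a (sm x.B a a) rfl
    cases τ with
    | false =>
      rw [mem_ZF] at hβ
      constructor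
      · apply key a haR β (by omega)
        · unfold Prm.adj
          omega
        · omega
      · rw [decide_eq_false_iff_not]
        omega
    | true =>
      rw [mem_ZT] at hβ
      constructor
      · apply key a haR β (by omega)
        · unfold Prm.adj
          omega
        · omega
      · rw [decide_eq_true_iff]
        omega
  · intro τ β hβ b hb
    change β ∈ x.ZZ τ at hβ
    change b ∈ x.YY τ at hb
    have hsm := sm_cases x.B b b (sm x.B b b) rfl
    cases τ with
    | false =>
      rw [mem_ZF] at hβ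
      rw [mem_YF] at hb
      apply key b ((mem_R x b).mpr (by omega)) β (by omega)
      · unfold Prm.adj
        omega
      · omega
    | true =>
      rw [mem_ZT] at hβ
      rw [mem_YT] at hb
      apply key b ((mem_R x b).mpr (by omega)) β (by omega)
      · unfold Prm.adj
        omega
      · omega
  · intro τ a ha b hb
    change a ∈ x.R0 at ha
    change b ∈ x.YY τ at hb
    change decide (a < sm x.B a b) = !τ
    rw [mem_R0] at ha
    have hsm := sm_cases x.B a b (sm x.B a b) rfl
    cases τ with
    | false =>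
      rw [mem_YF] at hb
      rw [Bool.not_false, decide_eq_true_iff]
      omega
    | true =>
      rw [mem_YT] at hb
      rw [Bool.not_true, decide_eq_false_iff_not]
      omega

end Pool.Agent.H14.HX
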