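import Pool.Agent.H14.HX.SVM

/-!
# Crew HX, parts MMD and WIN (helper14)
-/

set_option autoImplicit false
open Classical Finset

namespace Pool.Agent.H14.HX

open Pool.Agent.H39.HW (sm Av ln blk lab)
open Pool.Agent.H65.HX
open Pool.Agent.H65.HX.Sc

theorem t_MMD : S_MMD := by
  intro x hx
  obtain ⟨h1, h2, h3, h4⟩ := nums x hx
  have hBb := Bb x
  have hJ := hx.J1
  have hb1 : x.b1 = x.K + x.J + x.M := rfl
  refine ⟨?_, ?_⟩
  · unfold Prm.R
    rw [Nat.card_Icc]
    omega
  · intro a ha
    have ha' := (mem_R x a).mp ha
    have hmm : x.mm a = (x.R.erase a).image fun b => sm x.B a b := rfl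
    have hinj : Set.InjOn (fun b => sm x.B a b) ((x.R.erase a : Finset ℕ) : Set ℕ) := by
      intro b hb c hc hbc
      have hb' := (mem_R x b).mp (Finset.mem_of_mem_erase hb)
      have hc' := (mem_R x c).mp (Finset.mem_of_mem_erase hc)
      simp only [sm] at hbc
      split_ifs at hbc <;> omega
    refine ⟨?_, ?_, ?_, ?_⟩
    · intro β
      rw [hmm, Finset.mem_image]
      constructor
      · rintro ⟨b, hb, rfl⟩
        have hba := Finset.ne_of_mem_erase hb
        have hb' := (mem_R x b).mp (Finset.mem_of_mem_erase hb)
        unfold sm Prm.adj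
        refine ⟨?_, ?_, ?_⟩
        · split_ifs <;> omega
        · split_ifs <;> omega
        · split_ifs <;> omega
      · rintro ⟨h1, h2, h3⟩
        unfold Prm.adj at h2
        by_cases h4 : β ≤ a + x.K
        · have h5 : β + x.K < a := by
            by_contra h
            exact h2 ⟨h4, by omega⟩
          refine ⟨β + x.B - a, ?_, ?_⟩
          · rw [Finset.mem_erase, mem_R]
            refine ⟨?_, ?_, ?_⟩
            · intro h
              apply h3
              unfold sm
              split_ifs <;> omega
            · omega
            · omega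
          · unfold sm
            split_ifs <;> omega
        · refine ⟨β - a, ?_, ?_⟩
          · rw [Finset.mem_erase, mem_R]
            refine ⟨?_, ?_, ?_⟩
            · intro h
              apply h3
              unfold sm
              split_ifs <;> omega
            · omega
            · omega
          · unfold sm
            split_ifs <;> omega
    · rw [hmm, Finset.card_image_of_injOn hinj, Finset.card_erase_add_one ha]
    · unfold sm
      split_ifs <;> omega
    · unfold sm Prm.adj
      split_ifs <;> omega

theorem card_mod (L q c u : ℕ) (hc : c < L) :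
    ((Finset.Ico (u * (L * q)) (u * (L * q) + L * q)).filter fun r => r % L = c).card = q := by
  have hL : 0 < L := by omega
  have h : ((Finset.Ico (u * (L * q)) (u * (L * q) + L * q)).filter fun r => r % L = c)
      = (range q).image fun i => u * (L * q) + (L * i + c) := by
    ext r
    simp only [Finset.mem_filter, Finset.mem_Ico, Finset.mem_image, Finset.mem_range]
    constructor
    · rintro ⟨⟨h1, h2⟩, h3⟩
      obtain ⟨s, rfl⟩ := Nat.exists_eq_add_of_le h1
      have h4 : s < L * q := by omega
      have h5 : s % L = c := by
        rw [show u * (L * q) + s = s + L * (u * q) by ring, Nat.add_mul_mod_self_left] at h3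
        exact h3
      refine ⟨s / L, Nat.div_lt_of_lt_mul h4, ?_⟩
      rw [← h5, Nat.div_add_mod]
    · rintro ⟨i, hi, rfl⟩
      have h6 : L * i + L ≤ L * q := by
        rw [← Nat.mul_succ]
        exact Nat.mul_le_mul_left L hi
      refine ⟨⟨by omega, by omega⟩, ?_⟩
      rw [show u * (L * q) + (L * i + c) = c + L * (u * q + i) by ring,
        Nat.add_mul_mod_self_left, Nat.mod_eq_of_lt hc]
  rw [h, Finset.card_image_of_injective, Finset.card_range]
  intro i j hij
  simp only [add_right_inj, add_left_inj] at hij
  exact Nat.eq_of_mul_eq_mul_left hL hij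

theorem W1 (x : Prm) (hx : Par x) : 1 ≤ x.W := by
  have hL := hx.L1
  have hh := hx.h1
  have hq := hx.q1
  have : 0 < x.L := by
    rw [hL]
    positivity
  unfold Prm.W
  exact Nat.mul_pos this (by omega)

theorem t_WIN (hAVA : S_AVA) : S_WIN := by
  intro x hx a ha τ
  obtain ⟨h1, h2, h3, h4⟩ := nums x hx
  have hBb := Bb x
  have hJ := hx.J1
  have hKW := hx.KW
  have hKhK := hx.KhK
  have hW := W1 x hx
  have hb0 : x.b0 = x.K + x.J := rfl
  have hb1 : x.b1 = x.K + x.J + x.M := rfl
  have ha' := (mem_R x a).mp ha
  have hdiv : ∀ n k : ℕ, n / x.W = k → k * x.W ≤ n ∧ n < k * x.W + x.W := by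
    intro n k h
    rw [← h]
    constructor
    · exact Nat.div_mul_le_self n x.W
    · exact Nat.lt_div_mul_add (by omega)
  have hdiv' : ∀ n k : ℕ, k * x.W ≤ n → n < k * x.W + x.W → n / x.W = k := by
    intro n k h h'
    apply (Nat.div_eq_iff (by omega : 0 < x.W)).mpr
    constructor
    · exact h
    · omega
  -- the windows
  have keyT : ∀ b ∈ x.R, (x.win true b + 1) * x.W ≤ b + x.K + 1 ∧
      b + x.K + 1 < (x.win true b + 1) * x.W + x.W := by
    intro b hb
    have hb' := (mem_R x b).mp hb
    have hw : x.win true b = (b + x.K + 1) / x.W - 1 := by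
      simp [Prm.win]
    have h5 : 1 ≤ (b + x.K + 1) / x.W := by
      rw [Nat.one_le_div_iff (by omega)]
      omega
    have h6 := hdiv (b + x.K + 1) _ rfl
    have h7 : x.win true b + 1 = (b + x.K + 1) / x.W := by omega
    rw [← h7] at h6
    exact h6
  have keyF : ∀ b ∈ x.R, x.win false b * x.W ≤ b - x.K + x.W ∧
      b - x.K + x.W < x.win false b * x.W + x.W := by
    intro b hb
    have hw : x.win false b = (b - x.K) / x.W + 1 := by
      simp [Prm.win]
    have h6 := hdiv (b - x.K) _ rfl
    rw [hw, Nat.succ_mul]
    omega
  have hsT : (x.win true a + 1) * x.W = x.win true a * x.W + x.W := Nat.succ_mul _ _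
  have hsF : (x.win false a + 1) * x.W = x.win false a * x.W + x.W := Nat.succ_mul _ _
  have kT := keyT a ha
  have kF := keyF a ha
  -- windows inside the blocks
  have hin : ∀ τ : Bool, (x.win τ a + 1) * x.W ≤ x.B := by
    intro τ
    cases τ with
    | true => omega
    | false => omega
  refine ⟨?_, hin τ, ?_, ?_⟩
  · intro β hβ
    have h5 := hdiv _ _ hβ
    cases τ with
    | true =>
      have hβB : β < x.B := by omega
      obtain ⟨av1, av2, -⟩ := hAVA x hx a ha β hβB
      refine ⟨hβB, av1 (by omega), ?_, ?_, ?_⟩
      · unfold Prm.adj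
        omega
      · intro _
        omega
      · intro h
        exact absurd h (by simp)
    | false =>
      have hβB : β < x.B := by omega
      obtain ⟨av1, av2, -⟩ := hAVA x hx a ha β hβB
      refine ⟨hβB, av2 (by omega), ?_, ?_, ?_⟩
      · unfold Prm.adj
        omega
      · intro h
        exact absurd h (by simp)
      · intro _
        omega
  · intro P hP
    have hL1 := hx.L1
    have hc : 4 * x.h ^ 2 + P < x.L := by
      rw [hL1]
      have : 0 ≤ x.h ^ 2 := Nat.zero_le _
      omega
    have h := card_mod x.L x.q (4 * x.h ^ 2 + P) (x.win (x.tp P) a) hc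
    have hWL : x.W = x.L * x.q := rfl
    rw [← hWL] at h
    have hS : x.S P a = ((Finset.Ico (x.win (x.tp P) a * x.W)
        (x.win (x.tp P) a * x.W + x.W)).filter fun r => r % x.L = 4 * x.h ^ 2 + P) := by
      ext β
      simp only [Prm.S, Finset.mem_filter, Finset.mem_range, Finset.mem_Ico]
      have hi := hin (x.tp P)
      rw [Nat.succ_mul] at hi
      constructor
      · rintro ⟨h5, h6, h7⟩
        exact ⟨hdiv _ _ h6, h7⟩
      · rintro ⟨⟨h5, h6⟩, h7⟩
        exact ⟨by omega, hdiv' _ _ h5 h6, h7⟩
    rw [hS, h]
  · cases τ with
    | true =>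
      have hsub : (x.R.filter fun b => x.win true b = x.win true a) ⊆
          Finset.Ico ((x.win true a + 1) * x.W - (x.K + 1))
            ((x.win true a + 1) * x.W - (x.K + 1) + x.W) := by
        intro b hb
        rw [Finset.mem_filter] at hb
        obtain ⟨hb, hw⟩ := hb
        have c := keyT b hb
        have hb' := (mem_R x b).mp hb
        rw [hw] at c
        rw [Finset.mem_Ico]
        omega
      refine (Finset.card_le_card hsub).trans ?_
      rw [Nat.card_Ico]
      omega
    | false =>
      have hsub : (x.R.filter fun b => x.win false b = x.win false a) ⊆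
          Finset.Ico (x.win false a * x.W + x.K - x.W)
            (x.win false a * x.W + x.K - x.W + x.W) := by
        intro b hb
        rw [Finset.mem_filter] at hb
        obtain ⟨hb, hw⟩ := hb
        have c := keyF b hb
        have hb' := (mem_R x b).mp hb
        rw [hw] at c
        rw [Finset.mem_Ico]
        omega
      refine (Finset.card_le_card hsub).trans ?_
      rw [Nat.card_Ico]
      omega

end Pool.Agent.H14.HX
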